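import Pool.Agent.W606.UB.Fin

/-!
# An upper bound for the number of unknotted polygons in the cubic lattice
-/

set_option autoImplicit false

namespace Pool.Agent.Results.MP_aea6d5_co.UnknotUpperBound

open Filter Topology KN

/-- The number `pq U n` of unknotted polygons of length `n` in `ℤ³` (up to translation) is at most
`C * n ^ (-2/3) * μ₀ ^ n`, where `μ₀ = gr U` is the growth rate. In particular, if the asymptotic
form `pq U n ~ A * n ^ (α - 3) * μ₀ ^ n` (`n` even, `A > 0`) holds for the unknot then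
`α ≤ 7 / 3`. -/
theorem result :
    (∃ C : ℝ, ∀ n : ℕ, 1 ≤ n → pq U n ≤ C * (n : ℝ) ^ (-(2 / 3) : ℝ) * gr U ^ n) ∧
    ∀ A α : ℝ, 0 < A →
      Tendsto (fun j : ℕ => pq U (2 * j) / ((2 * j : ℝ) ^ (α - 3) * gr U ^ (2 * j))) atTop
        (𝓝 A) → α ≤ 7 / 3 :=
  ⟨UB.main, fun A α hA h => UB.exponent UB.main (by linarith [UB.gr_one]) A α hA h⟩

end Pool.Agent.Results.MP_aea6d5_co.UnknotUpperBound
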